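import Pool.Agent.KS6_68.BF.Normal
import Pool.Agent.KS6_68.BF.Zs
import Pool.Agent.KS6_68.BF.NegG

/-!
# The second theorem of Bertini fails for normal F-injective varieties in every characteristic

Let `p` be a prime number and `k` an algebraically closed field of characteristic `p`. Put
`γ = X₁ ^ p + X₀ X₂ ^ p` and `w_j = (X₁ γ) ^ j X₂ ^ (p - j)`, and let `R` be the subring of
`k[X₀, X₁, X₂]` generated over `k` by `X₀ ^ p`, `X₁ ^ (p ^ 2)` and the elements
`w_j X₁ ^ (p i) X₂ ^ (p (p - 1 - i))`, `0 ≤ i, j < p`. The affine variety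
`Spec R ⊆ 𝔸 ^ (p ^ 2 + 2) ⊆ ℙ ^ (p ^ 2 + 2)` is normal and F-injective, but its section by a
hyperplane `a none + ∑ i, a i * t i = 0` in which the coefficient of the coordinate
`t (inl 0) = X₀ ^ p` is not zero is never F-injective.
-/

set_option autoImplicit false

namespace Pool.Agent.Results.MP_f0334c_ag.NoBertiniAllCharacteristics

open Pool.Agent.KS6_68.BF

/-- For every prime number `p` and every algebraically closed field `k` of characteristic `p`
there is a normal F-injective affine variety `Spec R` in `𝔸 ^ (p ^ 2 + 2) ⊆ ℙ ^ (p ^ 2 + 2)` all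
of whose sections by hyperplanes `a none + ∑ i, a (some i) * t i = 0` with
`a (some (inl 0)) ≠ 0` are not F-injective. -/
theorem result (p : ℕ) [Fact p.Prime] (k : Type) [Field k] [IsAlgClosed k] [CharP k p] :
    IsDomain (R p k) ∧ IsIntegrallyClosed (R p k) ∧ FInjective p (R p k) ∧
      Algebra.adjoin k (Set.range (r p k)) = ⊤ ∧
      ∀ a : Option (Fin 2 ⊕ Fin p × Fin p) → k, a (some (Sum.inl 0)) ≠ 0 →
        ¬ FInjective p (R p k ⧸ Ideal.span {hyp p k a}) := by
  refine ⟨inferInstance, normal p k, fInjective, ?_, fun a ha => not_fInjective a ha⟩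
  have h : Set.range (r p k) = ((↑) : R p k → D k) ⁻¹' Set.range (gen p k) := by
    ext z
    constructor
    · rintro ⟨i, rfl⟩
      exact ⟨i, rfl⟩
    · rintro ⟨i, hi⟩
      exact ⟨i, Subtype.ext hi⟩
  rw [h]
  exact Algebra.adjoin_adjoin_coe_preimage

end Pool.Agent.Results.MP_f0334c_ag.NoBertiniAllCharacteristics
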